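import Pool.Agent.Helper76.TC.Goals

/-!
# Packet TC-TR (MP_ccd65d_gt)
-/

set_option autoImplicit false

open Set Topology

namespace Pool.Agent.Helper75.TC.TR

open Pool.Agent.Helper76.TC
open Pool.Agent.Helper50.CT (rv Cov Sh StmtTOP)

/-- The level function is continuous. -/
lemma cont_h {n : ℕ} {X T : Type} [MetricSpace X] [MetricSpace T] [AddAction (Fin n → ℤ) X]
    {π : X → T} (hc : Cov n X T π) (p : X) : Continuous fun v => dist (π p) (π v) := by
  have hl : LipschitzWith 1 fun v => dist (π p) (π v) := by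
    refine LipschitzWith.of_dist_le_mul fun v w => ?_
    have h1 : dist (π v) (π w) ≤ dist v w := by
      have h := hc.le v w 0
      rwa [zero_vadd] at h
    have h2 := abs_dist_sub_le (π v) (π w) (π p)
    rw [Real.dist_eq, NNReal.coe_one, one_mul, dist_comm (π p) (π v), dist_comm (π p) (π w)]
    exact h2.trans h1
  exact hl.continuous

theorem t (hLP : S_LP) (hCH : S_CH) (hGR : S_GR) (hAL : S_AL) (hTOP : StmtTOP) : S_TR := by
  intro n A e D X T _ _ _ _ π p q S
  have hAe : e ≤ A * e := by nlinarith [S.A1, S.epos]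
  have he := S.epos
  have hD0 : 0 ≤ D := S.dq ▸ dist_nonneg
  obtain ⟨hloc, hjo⟩ := hLP A X S.turn
  have hcont := cont_h S.cov p
  -- intermediate values
  have hiv : ∀ s : ℝ, 0 ≤ s → s ≤ D → ∃ y : X, dist (π p) (π y) = s := by
    intro s hs0 hs1
    set γ := (hjo p q).somePath with hγ
    have hf : Continuous fun t => dist (π p) (π (γ t)) := hcont.comp γ.continuous
    have h := intermediate_value_univ (0 : unitInterval) 1 hf
    have hm : s ∈ Icc (dist (π p) (π (γ 0))) (dist (π p) (π (γ 1))) := by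
      rw [γ.source, γ.target, dist_self, S.dq]
      exact ⟨hs0, hs1⟩
    obtain ⟨t, ht⟩ := h hm
    exact ⟨γ t, ht⟩
  obtain ⟨J₀, hJ₀⟩ := exists_nat_ge (D / e)
  set J := J₀ + 1 with hJ
  have hJpos : (0 : ℝ) < J := by rw [hJ]; positivity
  have hJe : D ≤ J * e := by
    have h1 : D ≤ J₀ * e := by rwa [div_le_iff₀ he] at hJ₀
    have h2 : (J : ℝ) = J₀ + 1 := by rw [hJ]; push_cast; ring
    rw [h2]
    nlinarith
  have hstep : D / J ≤ e := by
    rw [div_le_iff₀ hJpos]
    linarith [mul_comm e (J : ℝ)]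
  have hys : ∀ j : ℕ, ∃ y : X, j ≤ J → dist (π p) (π y) = j * (D / J) := by
    intro j
    by_cases hj : j ≤ J
    · have hj' : (j : ℝ) ≤ J := by exact_mod_cast hj
      have h0 : 0 ≤ D / J := div_nonneg hD0 hJpos.le
      obtain ⟨y, hy⟩ := hiv (j * (D / J)) (by positivity) (by
        calc (j : ℝ) * (D / J) ≤ J * (D / J) := mul_le_mul_of_nonneg_right hj' h0
          _ = D := by field_simp)
      exact ⟨y, fun _ => hy⟩
    · exact ⟨p, fun h => absurd h hj⟩
  choose y hy using hys
  -- the first alternative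
  let Q : ℕ → Prop := fun j => j ≤ J ∧ ∀ k : Fin n → ℤ,
    JoinedIn (lv π p fun s => s < dist (π p) (π (y j)) + 5 * A * e) (y j) (k +ᵥ y j)
  have hQJ : ∃ j, Q j := by
    refine ⟨J, le_rfl, fun k => ?_⟩
    have h1 : (lv π p fun s => s < dist (π p) (π (y J)) + 5 * A * e) = univ := by
      refine eq_univ_of_forall fun v => ?_
      have h2 := S.top v
      have h3 : dist (π p) (π (y J)) = D := by
        rw [hy J le_rfl]
        field_simp
      show dist (π p) (π v) < dist (π p) (π (y J)) + 5 * A * e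
      rw [h3]
      nlinarith
    rw [h1]
    exact (joinedIn_univ).2 (hjo _ _)
  classical
  set j := Nat.find hQJ with hjdef
  have hQj : Q j := Nat.find_spec hQJ
  refine ⟨y j, fun k => ?_⟩
  rcases Nat.eq_zero_or_pos j with hj0 | hjpos
  · refine (hQj.2 k).mono fun v hv => ?_
    have hv' : dist (π p) (π v) < dist (π p) (π (y j)) + 5 * A * e := hv
    have h1 : dist (π p) (π (y j)) = 0 := by
      rw [hy j hQj.1, hj0]
      simp
    have h2 : 0 ≤ dist (π p) (π v) := dist_nonneg
    show dist (π p) (π (y j)) - 9 * A * e < dist (π p) (π v) ∧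
      dist (π p) (π v) < dist (π p) (π (y j)) + 9 * A * e
    constructor
    · rw [h1]
      nlinarith
    · nlinarith
  · have hlt : j - 1 < j := by omega
    have hnot : ¬ Q (j - 1) := Nat.find_min hQJ hlt
    have hle : j - 1 ≤ J := by have := hQj.1; omega
    have hA2 : ∀ k : Fin n → ℤ, JoinedIn
        (lv π p fun s => dist (π p) (π (y (j - 1))) - 5 * A * e < s) (y (j - 1))
        (k +ᵥ y (j - 1)) := by
      rcases hAL n A e D X T π p q S (y (j - 1)) with h | h
      · exact absurd ⟨hle, h⟩ hnot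
      · exact h
    -- the two levels
    have hl1 : dist (π p) (π (y j)) = j * (D / J) := hy j hQj.1
    have hl2 : dist (π p) (π (y (j - 1))) = (j - 1) * (D / J) := by
      rw [hy (j - 1) hle, Nat.cast_sub hjpos]
      simp
    have h0 : 0 ≤ D / J := div_nonneg hD0 hJpos.le
    have hd1 : dist (π p) (π (y (j - 1))) ≤ dist (π p) (π (y j)) := by
      rw [hl1, hl2]
      nlinarith
    have hd2 : dist (π p) (π (y j)) - e ≤ dist (π p) (π (y (j - 1))) := by
      rw [hl1, hl2]
      nlinarith
    set R : Set X := lv π p fun s => dist (π p) (π (y (j - 1))) - 5 * A * e < s with hR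
    set L : Set X := lv π p fun s => s < dist (π p) (π (y j)) + 5 * A * e with hL
    obtain ⟨β, hβ⟩ := hCH n A e D X T π p q S (y j) (y (j - 1))
    have hβR : JoinedIn R (y j) (β +ᵥ y (j - 1)) := by
      refine hβ.mono fun v hv => ?_
      have hv1 : min (dist (π p) (π (y j))) (dist (π p) (π (y (j - 1)))) - 3 * A * e <
        dist (π p) (π v) := hv.1
      rw [min_eq_right hd1] at hv1
      show dist (π p) (π (y (j - 1))) - 5 * A * e < dist (π p) (π v)
      nlinarith
    have hGRR := (hGR n X T π S.cov p (fun s => dist (π p) (π (y (j - 1))) - 5 * A * e < s)).1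
    have hRk : JoinedIn R (y j) (k +ᵥ y j) := by
      have h1 : JoinedIn R (β +ᵥ y (j - 1)) (β +ᵥ (k +ᵥ y (j - 1))) := hGRR _ _ β (hA2 k)
      have h2 : JoinedIn R (k +ᵥ y j) (k +ᵥ (β +ᵥ y (j - 1))) := hGRR _ _ k hβR
      have e1 : β +ᵥ (k +ᵥ y (j - 1)) = k +ᵥ (β +ᵥ y (j - 1)) := by
        rw [vadd_vadd, vadd_vadd, add_comm]
      rw [e1] at h1
      exact (hβR.trans h1).trans h2.symm
    have hLk : JoinedIn L (y j) (k +ᵥ y j) := hQj.2 k
    have hLo : IsOpen L := isOpen_lt hcont continuous_const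
    have hRo : IsOpen R := isOpen_lt continuous_const hcont
    have hun : L ∪ R = univ := by
      refine eq_univ_of_forall fun v => ?_
      by_cases hv : dist (π p) (π v) < dist (π p) (π (y j)) + 5 * A * e
      · exact Or.inl hv
      · refine Or.inr ?_
        rw [not_lt] at hv
        show dist (π p) (π (y (j - 1))) - 5 * A * e < dist (π p) (π v)
        nlinarith
    have hfin := hTOP X L R hLo hRo hun (y j) (k +ᵥ y j) hLk hRk
    refine hfin.mono fun v hv => ?_
    have hv1 : dist (π p) (π v) < dist (π p) (π (y j)) + 5 * A * e := hv.1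
    have hv2 : dist (π p) (π (y (j - 1))) - 5 * A * e < dist (π p) (π v) := hv.2
    show dist (π p) (π (y j)) - 9 * A * e < dist (π p) (π v) ∧
      dist (π p) (π v) < dist (π p) (π (y j)) + 9 * A * e
    constructor
    · nlinarith
    · nlinarith

end Pool.Agent.Helper75.TC.TR
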